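import Mathlib

/-!
# The largest square in an odd-dimensional unit cube

For every `n ≥ 1` the largest edge `f(2, 2n+1)` of a square contained in the unit cube
`[0,1]^(2n+1)` equals `√((8n+1)/8)`.

Upper bound.  Let `a, b` be the two diagonal vectors of the square.  Both lie in `[-1,1]^N`,
have the same squared length `R = 2 s²` and are orthogonal.  Put `x j = a j ^ 2 - b j ^ 2`,
`y j = 2 * a j * b j`, `p j = 2 - a j ^ 2 - b j ^ 2`.  Then `∑ x = ∑ y = 0` and `|x j| ≤ p j`.  If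
the total deficit `P = ∑ p` were smaller than `3/2`, then `|x j| ≤ min (p j) (3/2 - p j)`, which
gives `|y j| ≥ 2 - (4/3) p j` for every `j`; as `N` is odd, the signs of the `y j` cannot cancel,
and `∑ y = 0` forces `P ≥ 3/2`, a contradiction.
-/

namespace Pool.Agent.Results.MP_befaea_co.LargestSquare

/-- `IsInscribed m n s`: some congruent copy of the cube `[0,s]^m`, that is, the image of
`[0,s]^m` under an affine isometry `ℝ^m → ℝ^n` (whose range is an `m`-dimensional affine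
subspace of `ℝ^n`), is contained in the unit cube `[0,1]^n`. -/
def IsInscribed (m n : ℕ) (s : ℝ) : Prop :=
  ∃ φ : EuclideanSpace ℝ (Fin m) →ᵃⁱ[ℝ] EuclideanSpace ℝ (Fin n),
    φ '' {x | ∀ i, x i ∈ Set.Icc (0 : ℝ) s} ⊆ {y | ∀ j, y j ∈ Set.Icc (0 : ℝ) 1}

/-- Pointwise bound: small deficit forces `y` to be far away from `0`. -/
lemma pointwise {a b : ℝ} (ha : |a| ≤ 1) (hb : |b| ≤ 1) {P : ℝ} (hP : P < 3 / 2)
    (hp : 2 - a ^ 2 - b ^ 2 ≤ P)
    (hx : |a ^ 2 - b ^ 2| ≤ P - (2 - a ^ 2 - b ^ 2)) :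
    2 - 4 / 3 * (2 - a ^ 2 - b ^ 2) ≤ |2 * a * b| := by
  have ha2 : a ^ 2 ≤ 1 := by
    have := abs_le.mp ha
    nlinarith
  have hb2 : b ^ 2 ≤ 1 := by
    have := abs_le.mp hb
    nlinarith
  set p := 2 - a ^ 2 - b ^ 2 with hpdef
  set x := a ^ 2 - b ^ 2 with hxdef
  have hp0 : 0 ≤ p := by rw [hpdef]; linarith
  have hxp : |x| ≤ p := by
    rw [abs_le]
    constructor
    · rw [hpdef, hxdef]; linarith
    · rw [hpdef, hxdef]; linarith
  have hy : (2 * a * b) ^ 2 = (2 - p) ^ 2 - x ^ 2 := by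
    rw [hpdef, hxdef]; ring
  have hxs : x ^ 2 ≤ p ^ 2 := by
    rw [← sq_abs x]
    exact pow_le_pow_left₀ (abs_nonneg x) hxp 2
  have hxs2 : x ^ 2 ≤ (3 / 2 - p) ^ 2 := by
    rw [← sq_abs x]
    apply pow_le_pow_left₀ (abs_nonneg x)
    linarith
  have hnn : 0 ≤ 2 - 4 / 3 * p := by linarith
  apply abs_le_of_sq_le_sq' _ (abs_nonneg _) |>.2
  rw [sq_abs, hy]
  rcases le_total p (3 / 4) with h | h
  · nlinarith
  · nlinarith

/-- The algebraic heart: orthogonal vectors of equal length in `[-1,1]^(2n+1)` have squared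
length at most `2n + 1/4`. -/
lemma key (n : ℕ) (a b : Fin (2 * n + 1) → ℝ) (ha : ∀ j, |a j| ≤ 1) (hb : ∀ j, |b j| ≤ 1)
    (R : ℝ) (hRa : ∑ j, a j ^ 2 = R) (hRb : ∑ j, b j ^ 2 = R) (hab : ∑ j, a j * b j = 0) :
    R ≤ 2 * n + 1 / 4 := by
  by_contra hcon
  push Not at hcon
  have ha2 : ∀ j, a j ^ 2 ≤ 1 := fun j => by
    have := abs_le.mp (ha j)
    nlinarith
  have hb2 : ∀ j, b j ^ 2 ≤ 1 := fun j => by
    have := abs_le.mp (hb j)
    nlinarith
  set P : ℝ := ∑ j, (2 - a j ^ 2 - b j ^ 2) with hPdef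
  have hPR : P = 2 * (2 * n + 1) - 2 * R := by
    rw [hPdef, Finset.sum_sub_distrib, Finset.sum_sub_distrib, hRa, hRb]
    simp
    ring
  have hP : P < 3 / 2 := by rw [hPR]; linarith
  have hp0 : ∀ j, 0 ≤ 2 - a j ^ 2 - b j ^ 2 := fun j => by
    have := ha2 j
    have := hb2 j
    linarith
  have hsplit : ∀ j, P = (2 - a j ^ 2 - b j ^ 2) +
      ∑ i ∈ Finset.univ.erase j, (2 - a i ^ 2 - b i ^ 2) := fun j => by
    rw [hPdef]
    exact (Finset.add_sum_erase Finset.univ (fun i => 2 - a i ^ 2 - b i ^ 2)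
      (Finset.mem_univ j)).symm
  have hpP : ∀ j, 2 - a j ^ 2 - b j ^ 2 ≤ P := fun j => by
    rw [hsplit j]
    have : 0 ≤ ∑ i ∈ Finset.univ.erase j, (2 - a i ^ 2 - b i ^ 2) :=
      Finset.sum_nonneg (fun i _ => hp0 i)
    linarith
  have hx0 : ∑ j, (a j ^ 2 - b j ^ 2) = 0 := by
    rw [Finset.sum_sub_distrib, hRa, hRb, sub_self]
  have hx : ∀ j, |a j ^ 2 - b j ^ 2| ≤ P - (2 - a j ^ 2 - b j ^ 2) := fun j => by
    have h1 : (a j ^ 2 - b j ^ 2) + ∑ i ∈ Finset.univ.erase j, (a i ^ 2 - b i ^ 2) = 0 := by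
      rw [Finset.add_sum_erase Finset.univ (fun i => a i ^ 2 - b i ^ 2) (Finset.mem_univ j)]
      exact hx0
    have h2 : a j ^ 2 - b j ^ 2 = - ∑ i ∈ Finset.univ.erase j, (a i ^ 2 - b i ^ 2) := by
      linarith
    rw [h2, abs_neg]
    have h3 : P - (2 - a j ^ 2 - b j ^ 2) =
        ∑ i ∈ Finset.univ.erase j, (2 - a i ^ 2 - b i ^ 2) := by
      rw [hsplit j]; ring
    rw [h3]
    refine (Finset.abs_sum_le_sum_abs _ _).trans (Finset.sum_le_sum (fun i _ => ?_))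
    rw [abs_le]
    have := ha2 i
    have := hb2 i
    constructor <;> linarith
  have hy : ∀ j, 2 - 4 / 3 * (2 - a j ^ 2 - b j ^ 2) ≤ |2 * a j * b j| := fun j =>
    pointwise (ha j) (hb j) hP (hpP j) (hx j)
  have hy2 : ∀ j, |2 * a j * b j| ≤ 2 := fun j => by
    rw [abs_mul, abs_mul, abs_two]
    have := mul_le_mul (ha j) (hb j) (abs_nonneg _) zero_le_one
    nlinarith
  -- signs
  have hσ : ∀ j, ∃ σ : ℤ, (σ = 1 ∨ σ = -1) ∧
      2 * (σ : ℝ) - 4 / 3 * (2 - a j ^ 2 - b j ^ 2) ≤ 2 * a j * b j ∧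
      2 * a j * b j ≤ 2 * (σ : ℝ) + 4 / 3 * (2 - a j ^ 2 - b j ^ 2) := by
    intro j
    have h1 := hy j
    have h2 := hy2 j
    have h3 := hp0 j
    rcases le_total 0 (2 * a j * b j) with h | h
    · rw [abs_of_nonneg h] at h1 h2
      refine ⟨1, Or.inl rfl, ?_, ?_⟩
      · push_cast; linarith
      · push_cast; linarith
    · rw [abs_of_nonpos h] at h1 h2
      refine ⟨-1, Or.inr rfl, ?_, ?_⟩
      · push_cast; linarith
      · push_cast; linarith
  choose σ hσ1 hσ2 hσ3 using hσ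
  have hysum : ∑ j, 2 * a j * b j = 0 := by
    have : ∑ j, 2 * a j * b j = 2 * ∑ j, a j * b j := by
      rw [Finset.mul_sum]
      exact Finset.sum_congr rfl (fun j _ => by ring)
    rw [this, hab, mul_zero]
  have hlow : 2 * ((∑ j, σ j : ℤ) : ℝ) - 4 / 3 * P ≤ 0 := by
    rw [← hysum, hPdef]
    push_cast
    rw [Finset.mul_sum, Finset.mul_sum, ← Finset.sum_sub_distrib]
    exact Finset.sum_le_sum (fun j _ => hσ2 j)
  have hupp : 0 ≤ 2 * ((∑ j, σ j : ℤ) : ℝ) + 4 / 3 * P := by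
    rw [← hysum, hPdef]
    push_cast
    rw [Finset.mul_sum, Finset.mul_sum, ← Finset.sum_add_distrib]
    exact Finset.sum_le_sum (fun j _ => hσ3 j)
  have hlt1 : ((∑ j, σ j : ℤ) : ℝ) < 1 := by linarith
  have hgt1 : (-1 : ℝ) < ((∑ j, σ j : ℤ) : ℝ) := by linarith
  have hlt : (∑ j, σ j : ℤ) < 1 := by exact_mod_cast hlt1
  have hgt : (-1 : ℤ) < (∑ j, σ j : ℤ) := by exact_mod_cast hgt1
  have hzero : (∑ j, σ j : ℤ) = 0 := by omega
  have hodd : (∑ j, σ j : ℤ) % 2 = 1 := by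
    rw [Finset.sum_int_mod]
    have : ∀ j, σ j % 2 = 1 := fun j => by
      rcases hσ1 j with h | h <;> rw [h] <;> rfl
    simp only [this]
    simp
  omega

/-- First diagonal vector of the extremal square. -/
noncomputable def va (j : ℕ) : ℝ := if j = 2 then 1 / 2 else 1

/-- Second diagonal vector of the extremal square. -/
noncomputable def vb (j : ℕ) : ℝ :=
  if j = 0 then 1 / 2 else if j = 1 then -1 else if j % 2 = 0 then 1 else -1

lemma va_abs (j : ℕ) : |va j| ≤ 1 := by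
  unfold va
  split_ifs
  · rw [abs_of_pos] <;> norm_num
  · simp

lemma vb_abs (j : ℕ) : |vb j| ≤ 1 := by
  unfold vb
  split_ifs
  · rw [abs_of_pos] <;> norm_num
  · simp
  · simp
  · simp

lemma sums (n : ℕ) : (∑ j ∈ Finset.range (2 * (n + 1) + 1), va j ^ 2 = 2 * (n + 1) + 1 / 4) ∧
    (∑ j ∈ Finset.range (2 * (n + 1) + 1), vb j ^ 2 = 2 * (n + 1) + 1 / 4) ∧
    (∑ j ∈ Finset.range (2 * (n + 1) + 1), va j * vb j = 0) := by
  induction n with
  | zero =>
    refine ⟨?_, ?_, ?_⟩ <;> norm_num [Finset.sum_range_succ, va, vb]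
  | succ n ih =>
    obtain ⟨h1, h2, h3⟩ := ih
    have e : 2 * (n + 1 + 1) + 1 = (2 * (n + 1) + 1) + 1 + 1 := by ring
    rw [e]
    simp only [Finset.sum_range_succ _ (2 * (n + 1) + 1 + 1),
      Finset.sum_range_succ _ (2 * (n + 1) + 1)]
    rw [h1, h2, h3]
    have hva1 : va (2 * (n + 1) + 1) = 1 := by
      unfold va; rw [if_neg]; omega
    have hva2 : va (2 * (n + 1) + 1 + 1) = 1 := by
      unfold va; rw [if_neg]; omega
    have hvb1 : vb (2 * (n + 1) + 1) = -1 := by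
      unfold vb; rw [if_neg, if_neg, if_neg] <;> omega
    have hvb2 : vb (2 * (n + 1) + 1 + 1) = 1 := by
      unfold vb; rw [if_neg, if_neg, if_pos] <;> omega
    rw [hva1, hva2, hvb1, hvb2]
    refine ⟨?_, ?_, ?_⟩ <;> push_cast <;> ring

/-- The upper bound on the edge of an inscribed square. -/
lemma upper (n : ℕ) (s : ℝ) (hs : 0 < s) (h : IsInscribed 2 (2 * n + 1) s) :
    s ≤ Real.sqrt ((8 * n + 1) / 8) := by
  obtain ⟨φ, hφ⟩ := h
  have hmem : ∀ u v : ℝ, 0 ≤ u → u ≤ s → 0 ≤ v → v ≤ s → ∀ j,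
      0 ≤ (φ (!₂[u, v] : EuclideanSpace ℝ (Fin 2))) j ∧
      (φ (!₂[u, v] : EuclideanSpace ℝ (Fin 2))) j ≤ 1 := by
    intro u v hu hu' hv hv' j
    have : φ (!₂[u, v] : EuclideanSpace ℝ (Fin 2)) ∈
        φ '' {x | ∀ i, x i ∈ Set.Icc (0 : ℝ) s} := by
      refine ⟨_, ?_, rfl⟩
      intro i
      fin_cases i
      · exact ⟨hu, hu'⟩
      · exact ⟨hv, hv'⟩
    exact hφ this j
  set a : EuclideanSpace ℝ (Fin (2 * n + 1)) := φ !₂[s, s] - φ !₂[0, 0] with hadef
  set b : EuclideanSpace ℝ (Fin (2 * n + 1)) := φ !₂[0, s] - φ !₂[s, 0] with hbdef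
  have hA : a = φ.linearIsometry (!₂[s, s] - !₂[0, 0]) := by
    rw [hadef]
    exact (φ.map_vsub _ _).symm
  have hB : b = φ.linearIsometry (!₂[0, s] - !₂[s, 0]) := by
    rw [hbdef]
    exact (φ.map_vsub _ _).symm
  have hna : ∑ j, a j ^ 2 = 2 * s ^ 2 := by
    have : ‖a‖ ^ 2 = 2 * s ^ 2 := by
      rw [hA, LinearIsometry.norm_map, EuclideanSpace.real_norm_sq_eq]
      simp [Fin.sum_univ_two]
      ring
    rw [← this, EuclideanSpace.real_norm_sq_eq]
  have hnb : ∑ j, b j ^ 2 = 2 * s ^ 2 := by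
    have : ‖b‖ ^ 2 = 2 * s ^ 2 := by
      rw [hB, LinearIsometry.norm_map, EuclideanSpace.real_norm_sq_eq]
      simp [Fin.sum_univ_two]
      ring
    rw [← this, EuclideanSpace.real_norm_sq_eq]
  have hab : ∑ j, a j * b j = 0 := by
    have h0 : inner ℝ a b = 0 := by
      rw [hA, hB, LinearIsometry.inner_map_map]
      simp [PiLp.inner_apply, Fin.sum_univ_two]
    rw [PiLp.inner_apply] at h0
    rw [← h0]
    refine Finset.sum_congr rfl (fun j _ => ?_)
    simp [mul_comm]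
  have ha : ∀ j, |a j| ≤ 1 := by
    intro j
    have h1 := hmem s s hs.le le_rfl hs.le le_rfl j
    have h2 := hmem 0 0 le_rfl hs.le le_rfl hs.le j
    rw [hadef, PiLp.sub_apply, abs_le]
    constructor <;> linarith [h1.1, h1.2, h2.1, h2.2]
  have hb : ∀ j, |b j| ≤ 1 := by
    intro j
    have h1 := hmem 0 s le_rfl hs.le hs.le le_rfl j
    have h2 := hmem s 0 hs.le le_rfl le_rfl hs.le j
    rw [hbdef, PiLp.sub_apply, abs_le]
    constructor <;> linarith [h1.1, h1.2, h2.1, h2.2]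
  have := key n (fun j => a j) (fun j => b j) ha hb (2 * s ^ 2) hna hnb hab
  apply Real.le_sqrt_of_sq_le
  linarith

/-- The square with diagonal vectors `va`, `vb` centred at the centre of the cube. -/
lemma lower (n : ℕ) (hn : 1 ≤ n) :
    IsInscribed 2 (2 * n + 1) (Real.sqrt ((8 * n + 1) / 8)) := by
  obtain ⟨m, rfl⟩ : ∃ m, n = m + 1 := ⟨n - 1, by omega⟩
  obtain ⟨h1, h2, h3⟩ := sums m
  set s : ℝ := Real.sqrt ((8 * ((m + 1 : ℕ) : ℝ) + 1) / 8) with hs
  have hs2 : s ^ 2 = (8 * ((m + 1 : ℕ) : ℝ) + 1) / 8 := by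
    rw [hs]
    exact Real.sq_sqrt (by positivity)
  have hspos : 0 < s := by
    rw [hs]
    exact Real.sqrt_pos.mpr (by positivity)
  have hR : (2 * ((m : ℝ) + 1) + 1 / 4) = 2 * s ^ 2 := by
    rw [hs2]; push_cast; ring
  rw [hR] at h1 h2
  rw [← Fin.sum_univ_eq_sum_range (fun j => va j ^ 2)] at h1
  rw [← Fin.sum_univ_eq_sum_range (fun j => vb j ^ 2)] at h2
  rw [← Fin.sum_univ_eq_sum_range (fun j => va j * vb j)] at h3
  let e1 : EuclideanSpace ℝ (Fin (2 * (m + 1) + 1)) :=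
    WithLp.toLp 2 (fun j => (va j - vb j) / (2 * s))
  let e2 : EuclideanSpace ℝ (Fin (2 * (m + 1) + 1)) :=
    WithLp.toLp 2 (fun j => (va j + vb j) / (2 * s))
  let p : EuclideanSpace ℝ (Fin (2 * (m + 1) + 1)) :=
    WithLp.toLp 2 (fun j => 1 / 2 - va j / 2)
  let L : EuclideanSpace ℝ (Fin 2) →ₗ[ℝ] EuclideanSpace ℝ (Fin (2 * (m + 1) + 1)) :=
    { toFun := fun x => x 0 • e1 + x 1 • e2
      map_add' := by
        intro x y
        simp only [PiLp.add_apply, add_smul]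
        abel
      map_smul' := by
        intro c x
        simp only [PiLp.smul_apply, smul_eq_mul, RingHom.id_apply, smul_add, mul_smul] }
  have hL : ∀ x, ‖L x‖ = ‖x‖ := by
    intro x
    have hsq : ‖L x‖ ^ 2 = ‖x‖ ^ 2 := by
      rw [EuclideanSpace.real_norm_sq_eq, EuclideanSpace.real_norm_sq_eq, Fin.sum_univ_two]
      have hc : ∀ j : Fin (2 * (m + 1) + 1), (L x) j ^ 2 =
          ((x 0 + x 1) ^ 2 / (4 * s ^ 2)) * va j ^ 2 + ((x 1 - x 0) ^ 2 / (4 * s ^ 2)) * vb j ^ 2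
          + ((x 1 ^ 2 - x 0 ^ 2) / (2 * s ^ 2)) * (va j * vb j) := by
        intro j
        have : (L x) j = x 0 * ((va j - vb j) / (2 * s)) + x 1 * ((va j + vb j) / (2 * s)) := by
          simp [L, e1, e2]
        rw [this]
        field_simp
        ring
      rw [Finset.sum_congr rfl (fun j _ => hc j), Finset.sum_add_distrib,
        Finset.sum_add_distrib, ← Finset.mul_sum, ← Finset.mul_sum, ← Finset.mul_sum, h1, h2, h3]
      field_simp
      ring
    have := abs_eq_abs.mpr (Or.inl rfl : ‖L x‖ = ‖L x‖ ∨ _)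
    exact (pow_left_inj₀ (norm_nonneg _) (norm_nonneg _) two_ne_zero).mp hsq
  let Li : EuclideanSpace ℝ (Fin 2) →ₗᵢ[ℝ] EuclideanSpace ℝ (Fin (2 * (m + 1) + 1)) :=
    ⟨L, hL⟩
  refine ⟨(AffineIsometryEquiv.vaddConst ℝ p).toAffineIsometry.comp Li.toAffineIsometry, ?_⟩
  rintro _ ⟨x, hx, rfl⟩ j
  have hval : ((AffineIsometryEquiv.vaddConst ℝ p).toAffineIsometry.comp Li.toAffineIsometry) x j =
      x 0 * ((va j - vb j) / (2 * s)) + x 1 * ((va j + vb j) / (2 * s)) + (1 / 2 - va j / 2) := by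
    simp [Li, L, e1, e2, p]
  rw [hval]
  have hx0 := hx 0
  have hx1 := hx 1
  obtain ⟨t0, ht0⟩ : ∃ t0, x 0 = t0 * s := ⟨x 0 / s, by field_simp⟩
  obtain ⟨t1, ht1⟩ : ∃ t1, x 1 = t1 * s := ⟨x 1 / s, by field_simp⟩
  rw [ht0] at hx0
  rw [ht1] at hx1
  have h00 : 0 ≤ t0 := by
    by_contra hc
    push Not at hc
    have := mul_neg_of_neg_of_pos hc hspos
    linarith [hx0.1]
  have h01 : t0 ≤ 1 := by
    by_contra hc
    push Not at hc
    have := mul_lt_mul_of_pos_right hc hspos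
    linarith [hx0.2]
  have h10 : 0 ≤ t1 := by
    by_contra hc
    push Not at hc
    have := mul_neg_of_neg_of_pos hc hspos
    linarith [hx1.1]
  have h11 : t1 ≤ 1 := by
    by_contra hc
    push Not at hc
    have := mul_lt_mul_of_pos_right hc hspos
    linarith [hx1.2]
  rw [ht0, ht1]
  have hform : t0 * s * ((va j - vb j) / (2 * s)) + t1 * s * ((va j + vb j) / (2 * s)) +
      (1 / 2 - va j / 2) = 1 / 2 + (va j * (t0 + t1 - 1) + vb j * (t1 - t0)) / 2 := by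
    field_simp
    ring
  rw [hform]
  have hbound : |va j * (t0 + t1 - 1) + vb j * (t1 - t0)| ≤ 1 := by
    refine (abs_add_le _ _).trans ?_
    rw [abs_mul, abs_mul]
    have e1' : |va j| * |t0 + t1 - 1| ≤ |t0 + t1 - 1| := by
      have := mul_le_mul_of_nonneg_right (va_abs j) (abs_nonneg (t0 + t1 - 1))
      linarith
    have e2' : |vb j| * |t1 - t0| ≤ |t1 - t0| := by
      have := mul_le_mul_of_nonneg_right (vb_abs j) (abs_nonneg (t1 - t0))
      linarith
    have e3 : |t0 + t1 - 1| + |t1 - t0| ≤ 1 := by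
      rcases abs_cases (t0 + t1 - 1) with h | h <;> rcases abs_cases (t1 - t0) with h' | h' <;>
        linarith
    linarith
  rw [abs_le] at hbound
  constructor <;> linarith [hbound.1, hbound.2]

/-- **Answer to Q1.**  For every `n ≥ 1` the maximum `f(2, 2n+1)` of the edges of squares
contained in the unit cube `[0,1]^(2n+1)` exists and equals `√((8n+1)/8)`. -/
theorem result : ∀ n : ℕ, 1 ≤ n →
    IsGreatest {s : ℝ | 0 < s ∧ IsInscribed 2 (2 * n + 1) s} (Real.sqrt ((8 * n + 1) / 8)) := by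
  intro n hn
  refine ⟨⟨Real.sqrt_pos.mpr (by positivity), lower n hn⟩, ?_⟩
  rintro s ⟨hs, h⟩
  exact upper n s hs h

end Pool.Agent.Results.MP_befaea_co.LargestSquare
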